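import Mathlib
import Pool.Agent.H447R2.ML.Law
import Pool.Agent.H447R2.ML.Spec

set_option autoImplicit false

/-!
# Mean laws over shrinking windows of real bases (general form)
-/

namespace Pool.Agent.H937

open Filter Topology MeasureTheory

open Pool.Agent.H447R2.ML (Good LL gg fl)

lemma log_nat_tendsto : Tendsto (fun p : ℕ => Real.log (p : ℝ)) atTop atTop :=
  Real.tendsto_log_atTop.comp tendsto_natCast_atTop_atTop

lemma scale {g : ℝ → ℝ} {u v : ℝ} (huv : u ≤ v) {p : ℕ} (hp : 0 < p) (b : ℝ) :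
    ∫ τ in Set.Ioc u v, g (p * τ + b) = (∫ y in Set.Ioc (p * u + b) (p * v + b), g y) / p := by
  have hp0 : (0 : ℝ) < p := by exact_mod_cast hp
  have h1 : (p : ℝ) * u + b ≤ p * v + b := by
    have := mul_le_mul_of_nonneg_left huv hp0.le
    linarith
  rw [← intervalIntegral.integral_of_le huv, ← intervalIntegral.integral_of_le h1,
    intervalIntegral.integral_comp_mul_add (fun y => g y) hp0.ne' b, smul_eq_mul]
  field_simp

/-- uniformity in the window -/
lemma unif {f : ℕ → ℝ → ℝ} {κ : ℝ} (hf : Good f κ) (b : ℝ) {c : ℝ} (hc : κ < c) {u v : ℕ → ℝ}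
    (hu : Tendsto u atTop (𝓝 c)) (hv : Tendsto v atTop (𝓝 c)) {ε : ℝ} (hε : 0 < ε) :
    ∀ᶠ p : ℕ in atTop, ∀ n : ℕ, p ≤ n → ∀ y ∈ Set.Ioc (p * u n + b) (p * v n + b),
      |LL f p y * (p / Real.log p) - Real.exp Real.eulerMascheroniConstant / c| ≤ ε := by
  by_contra hno
  rw [not_eventually] at hno
  set P : ℕ → ℝ → Prop := fun p y => ∃ n : ℕ, p ≤ n ∧ y ∈ Set.Ioc (p * u n + b) (p * v n + b) ∧
    ε < |LL f p y * (p / Real.log p) - Real.exp Real.eulerMascheroniConstant / c| with hP
  classical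
  set Y : ℕ → ℝ := fun p => if h : ∃ y, P p y then h.choose else c * p with hY
  have hb0 : Tendsto (fun p : ℕ => |b| / (p : ℝ)) atTop (𝓝 0) :=
    tendsto_const_div_atTop_nhds_zero_nat _
  have hYlim : Tendsto (fun p : ℕ => Y p / p) atTop (𝓝 c) := by
    rw [Metric.tendsto_atTop]
    intro δ hδ
    obtain ⟨N1, hN1⟩ := (Metric.tendsto_atTop.1 hu) (δ / 2) (by linarith)
    obtain ⟨N2, hN2⟩ := (Metric.tendsto_atTop.1 hv) (δ / 2) (by linarith)
    obtain ⟨N3, hN3⟩ := eventually_atTop.1 (hb0.eventually (gt_mem_nhds (show 0 < δ / 2 by linarith)))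
    refine ⟨max (max N1 N2) (max N3 1), fun p hp => ?_⟩
    have hp1 : N1 ≤ p := (le_max_left _ _).trans ((le_max_left _ _).trans hp)
    have hp2 : N2 ≤ p := (le_max_right _ _).trans ((le_max_left _ _).trans hp)
    have hp4 : N3 ≤ p := (le_max_left _ _).trans ((le_max_right _ _).trans hp)
    have hp3 : 1 ≤ p := (le_max_right _ _).trans ((le_max_right _ _).trans hp)
    have hp0 : (0 : ℝ) < p := by exact_mod_cast hp3
    have hbp := hN3 p hp4
    rw [div_lt_iff₀ hp0] at hbp
    have hb1 := neg_abs_le b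
    have hb2 := le_abs_self b
    by_cases h : ∃ y, P p y
    · have e : Y p = h.choose := by simp only [hY]; rw [dif_pos h]
      obtain ⟨n, hn, hy, -⟩ := h.choose_spec
      rw [e]
      have a1 := hN1 n (hp1.trans hn)
      have a2 := hN2 n (hp2.trans hn)
      rw [Real.dist_eq, abs_lt] at a1 a2 ⊢
      have b1 : c - δ < h.choose / p := by
        rw [lt_div_iff₀ hp0]
        have := mul_lt_mul_of_pos_left (show c - δ / 2 < u n by linarith [a1.1]) hp0
        nlinarith [hy.1]
      have b2 : h.choose / p < c + δ := by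
        rw [div_lt_iff₀ hp0]
        have := mul_lt_mul_of_pos_left (show v n < c + δ / 2 by linarith [a2.2]) hp0
        nlinarith [hy.2]
      constructor
      · linarith
      · linarith
    · have e : Y p = c * p := by simp only [hY]; rw [dif_neg h]
      rw [e, mul_div_assoc, div_self hp0.ne', mul_one, dist_self]
      exact hδ
  have h1 := hf.asymp c hc Y hYlim
  have h2 := (Metric.tendsto_atTop.1 h1) ε hε
  obtain ⟨N, hN⟩ := h2
  obtain ⟨p, hp, hbad⟩ := (hno.and_eventually (eventually_ge_atTop N)).exists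
  have hex : ∃ y, P p y := by
    push Not at hp
    obtain ⟨n, hn, y, hy, hlt⟩ := hp
    exact ⟨y, n, hn, hy, hlt⟩
  have e : Y p = hex.choose := by simp only [hY]; rw [dif_pos hex]
  obtain ⟨n, hn, hy, hlt⟩ := hex.choose_spec
  have h3 := hN p hbad
  rw [Real.dist_eq, e] at h3
  exact absurd h3 (not_lt.2 hlt.le)

/-- the first moment of one prime, uniformly in the window -/
lemma one_prime {f : ℕ → ℝ → ℝ} {κ : ℝ} (hf : Good f κ) (b : ℝ) {c : ℝ} (hc : κ < c)
    {u v : ℕ → ℝ} (hu : Tendsto u atTop (𝓝 c)) (hv : Tendsto v atTop (𝓝 c))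
    (huv : ∀ n, u n < v n) :
    ∃ K : ℝ, 0 < K ∧ ∀ ε : ℝ, 0 < ε → ∀ᶠ p : ℕ in atTop, ∀ n : ℕ, p ≤ n →
      |(∫ τ in Set.Ioc (u n) (v n), f p (p * τ + b)) -
        (v n - u n) * (Real.exp Real.eulerMascheroniConstant / c) * (Real.log p / p)| ≤
      ε * (v n - u n) * (Real.log p / p) + K * (Real.log p / p ^ 2) := by
  set G := Real.exp Real.eulerMascheroniConstant with hG
  have hκ := hf.kappa
  obtain ⟨K, hK, hev⟩ := Pool.Agent.H447R2.ML.bounds hf (c := (κ + c) / 2) (by linarith)
  refine ⟨K, hK, fun ε hε => ?_⟩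
  have hlog1 : ∀ᶠ p : ℕ in atTop, 1 ≤ Real.log p := log_nat_tendsto.eventually_ge_atTop 1
  have hlarge : ∀ᶠ p : ℕ in atTop, (1 + |b|) / ((c - κ) / 4) ≤ p :=
    tendsto_natCast_atTop_atTop.eventually_ge_atTop _
  have hu2 : ∀ᶠ p : ℕ in atTop, ∀ n : ℕ, p ≤ n → (κ + 3 * c) / 4 < u n := by
    obtain ⟨N, hN⟩ := eventually_atTop.1
      (hu.eventually_const_lt (show (κ + 3 * c) / 4 < c by linarith))
    filter_upwards [eventually_ge_atTop N] with p hp n hn
    exact hN n (hp.trans hn)
  filter_upwards [hev, hlog1, hlarge, hu2, unif hf b hc hu hv hε, eventually_gt_atTop 0]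
    with p hp hl hpl hun hU hp0' n hn
  have hp0 : (0 : ℝ) < p := by exact_mod_cast hp0'
  have hl0 : 0 < Real.log p := by linarith
  have hd : 0 < v n - u n := by linarith [huv n]
  have hb1 := neg_abs_le b
  have hstart : (κ + c) / 2 * p + 1 ≤ p * u n + b := by
    have h1 := mul_lt_mul_of_pos_left (hun n hn) hp0
    rw [div_le_iff₀ (by linarith)] at hpl
    nlinarith
  have hle : (p : ℝ) * u n + b ≤ p * v n + b := by nlinarith
  set w := Real.log p / p with hw
  have hw0 : 0 < w := by positivity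
  have e0 : ∫ τ in Set.Ioc (u n) (v n), f p (p * τ + b) =
      (∫ y in Set.Ioc (p * u n + b) (p * v n + b), f p y) / p :=
    scale (g := f p) (huv n).le hp0' b
  have e1 : ∫ y in Set.Ioc (p * u n + b) (p * v n + b), gg f p y =
      (∫ y in Set.Ioc (p * u n + b) (p * v n + b), f p y) -
      ∫ y in Set.Ioc (p * u n + b) (p * v n + b), LL f p y :=
    integral_sub (Pool.Agent.H447R2.ML.integrableOn_ff hf p _ _)
      (Pool.Agent.H447R2.ML.integrableOn_LL hf p _ _)
  have h3 := hp.2.2.1 _ _ hstart hle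
  have hLLb : ∀ y ∈ Set.Ioc ((p : ℝ) * u n + b) (p * v n + b),
      |LL f p y - G / c * w| ≤ ε * w := by
    intro y hy
    have h4 := hU n hn y hy
    have h5 : LL f p y - G / c * w = (LL f p y * (p / Real.log p) - G / c) * w := by
      rw [hw]
      field_simp
    rw [h5, abs_mul, abs_of_pos hw0]
    exact mul_le_mul_of_nonneg_right h4 hw0.le
  have h6 : |(∫ y in Set.Ioc (p * u n + b) (p * v n + b), LL f p y) -
      (p * (v n - u n)) * (G / c * w)| ≤ (ε * w) * (p * (v n - u n)) := by
    have e2 : (∫ y in Set.Ioc (p * u n + b) (p * v n + b), LL f p y) -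
        (p * (v n - u n)) * (G / c * w) =
        ∫ y in Set.Ioc (p * u n + b) (p * v n + b), (LL f p y - G / c * w) := by
      rw [integral_sub (Pool.Agent.H447R2.ML.integrableOn_LL hf p _ _)
        (integrableOn_const (by simp)), setIntegral_const, smul_eq_mul,
        Real.volume_real_Ioc_of_le hle]
      ring
    rw [e2, ← Real.norm_eq_abs]
    have e9 := norm_setIntegral_le_of_norm_le_const (μ := volume) (C := ε * w)
      (s := Set.Ioc ((p : ℝ) * u n + b) (p * v n + b)) (f := fun y => LL f p y - G / c * w)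
      (by simp) (fun y hy => by
        rw [Real.norm_eq_abs]
        exact hLLb y hy)
    refine e9.trans ?_
    rw [Real.volume_real_Ioc_of_le hle]
    exact le_of_eq (by ring)
  rw [e0]
  have e7 : (∫ y in Set.Ioc (p * u n + b) (p * v n + b), f p y) / p -
      (v n - u n) * (G / c) * w =
      (((∫ y in Set.Ioc (p * u n + b) (p * v n + b), LL f p y) -
        (p * (v n - u n)) * (G / c * w)) +
        ∫ y in Set.Ioc (p * u n + b) (p * v n + b), gg f p y) / p := by
    rw [e1]
    field_simp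
    ring
  rw [e7, abs_div, abs_of_pos hp0, div_le_iff₀ hp0]
  refine (abs_add_le _ _).trans ?_
  have e8 : (ε * (v n - u n) * w + K * (Real.log p / p ^ 2)) * p =
      (ε * w) * (p * (v n - u n)) + K * w := by
    rw [hw]
    field_simp
  rw [e8]
  exact add_le_add h6 h3

/-- the local law for one prime -/
lemma local_law {f : ℕ → ℝ → ℝ} {κ : ℝ} (hf : Good f κ) (b : ℝ) {c : ℝ} (hc : κ < c)
    {u v : ℕ → ℝ} (hu : Tendsto u atTop (𝓝 c)) (hv : Tendsto v atTop (𝓝 c))
    (huv : ∀ p, u p < v p)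
    (hw : Tendsto (fun p : ℕ => (p : ℝ) * (v p - u p)) atTop atTop) :
    Tendsto (fun p : ℕ => (∫ τ in Set.Ioc (u p) (v p), f p (p * τ + b)) / (v p - u p) *
      (p / Real.log p)) atTop (𝓝 (Real.exp Real.eulerMascheroniConstant / c)) := by
  obtain ⟨K, hK, hone⟩ := one_prime hf b hc hu hv huv
  rw [Metric.tendsto_atTop]
  intro δ hδ
  have h1 := hone (δ / 4) (by linarith)
  have h2 : ∀ᶠ p : ℕ in atTop, K / (δ / 4) ≤ (p : ℝ) * (v p - u p) := hw.eventually_ge_atTop _
  have h3 : ∀ᶠ p : ℕ in atTop, 1 ≤ Real.log p := log_nat_tendsto.eventually_ge_atTop 1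
  obtain ⟨N, hN⟩ := eventually_atTop.1 (h1.and (h2.and (h3.and (eventually_gt_atTop 0))))
  refine ⟨N, fun p hp => ?_⟩
  obtain ⟨a1, a2, a3, a4⟩ := hN p hp
  have b1 := a1 p le_rfl
  have hp0 : (0 : ℝ) < p := by exact_mod_cast a4
  have hd : 0 < v p - u p := by linarith [huv p]
  have hl : 0 < Real.log p := by linarith
  rw [div_le_iff₀ (by linarith)] at a2
  rw [Real.dist_eq]
  have e : (∫ τ in Set.Ioc (u p) (v p), f p (p * τ + b)) / (v p - u p) * (p / Real.log p) -
      Real.exp Real.eulerMascheroniConstant / c =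
      ((∫ τ in Set.Ioc (u p) (v p), f p (p * τ + b)) -
        (v p - u p) * (Real.exp Real.eulerMascheroniConstant / c) * (Real.log p / p)) /
        ((v p - u p) * (Real.log p / p)) := by
    field_simp
  have hden : 0 < (v p - u p) * (Real.log p / p) := by positivity
  rw [e, abs_div, abs_of_pos hden, div_lt_iff₀ hden]
  refine b1.trans_lt ?_
  have e2 : K * (Real.log p / (p : ℝ) ^ 2) ≤ (δ / 4) * ((v p - u p) * (Real.log p / p)) := by
    have e3 : K * (Real.log p / (p : ℝ) ^ 2) = K * (Real.log p / p) / p := by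
      field_simp
    rw [e3, div_le_iff₀ hp0]
    have hlp : 0 < Real.log p / p := by positivity
    nlinarith
  nlinarith

/-- a crude summable majorant -/
lemma tail_bound : ∃ C : ℝ, 0 < C ∧ ∀ S : Finset ℕ, ∑ p ∈ S, Real.log p / (p : ℝ) ^ 2 ≤ C := by
  have hs : Summable (fun n : ℕ => 2 * (1 / (n : ℝ) ^ (3 / 2 : ℝ))) :=
    (Real.summable_one_div_nat_rpow.2 (by norm_num)).mul_left 2
  have hle : ∀ n : ℕ, Real.log n / (n : ℝ) ^ 2 ≤ 2 * (1 / (n : ℝ) ^ (3 / 2 : ℝ)) := by
    intro n
    rcases Nat.eq_zero_or_pos n with rfl | hn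
    · simp
    · have hn0 : (0 : ℝ) < n := by exact_mod_cast hn
      have h1 : Real.log n ≤ (n : ℝ) ^ (1 / 2 : ℝ) / (1 / 2) :=
        Real.log_le_rpow_div hn0.le (by norm_num)
      have h2 : (n : ℝ) ^ 2 = (n : ℝ) ^ (1 / 2 : ℝ) * (n : ℝ) ^ (3 / 2 : ℝ) := by
        rw [← Real.rpow_add hn0]
        norm_num
      rw [h2]
      have h3 : (0 : ℝ) < (n : ℝ) ^ (1 / 2 : ℝ) := Real.rpow_pos_of_pos hn0 _
      have h4 : (0 : ℝ) < (n : ℝ) ^ (3 / 2 : ℝ) := Real.rpow_pos_of_pos hn0 _
      rw [div_le_iff₀ (by positivity)]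
      calc Real.log n ≤ (n : ℝ) ^ (1 / 2 : ℝ) / (1 / 2) := h1
        _ = 2 * (1 / (n : ℝ) ^ (3 / 2 : ℝ)) * ((n : ℝ) ^ (1 / 2 : ℝ) * (n : ℝ) ^ (3 / 2 : ℝ)) := by
            field_simp
  have hnn : ∀ n : ℕ, 0 ≤ 2 * (1 / (n : ℝ) ^ (3 / 2 : ℝ)) := fun n => by positivity
  refine ⟨(∑' n : ℕ, 2 * (1 / (n : ℝ) ^ (3 / 2 : ℝ))) + 1, by
    have : 0 ≤ ∑' n : ℕ, 2 * (1 / (n : ℝ) ^ (3 / 2 : ℝ)) := tsum_nonneg hnn
    linarith, fun S => ?_⟩
  have h1 := (Finset.sum_le_sum fun n (_ : n ∈ S) => hle n).trans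
    (hs.sum_le_tsum S fun n _ => hnn n)
  linarith

/-- the mean law on shrinking windows -/
lemma mean_shrink {f : ℕ → ℝ → ℝ} {κ : ℝ} (hf : Good f κ) (b : ℝ) {c : ℝ} (hc : κ < c)
    {u v : ℕ → ℝ} (hu : Tendsto u atTop (𝓝 c)) (hv : Tendsto v atTop (𝓝 c))
    (huv : ∀ n, u n < v n)
    (hw : Tendsto (fun n : ℕ => (v n - u n) * Real.log n) atTop atTop) :
    Tendsto (fun n : ℕ => (∑ p ∈ (Finset.Icc 1 n).filter Nat.Prime,
      ∫ τ in Set.Ioc (u n) (v n), f p (p * τ + b)) / ((v n - u n) * Real.log n)) atTop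
      (𝓝 (Real.exp Real.eulerMascheroniConstant / c)) := by
  set G := Real.exp Real.eulerMascheroniConstant with hG
  have hG0 : 0 < G := Real.exp_pos _
  have hc0 : 0 < c := lt_of_le_of_lt hf.kappa hc
  obtain ⟨K, hK, hone⟩ := one_prime hf b hc hu hv huv
  obtain ⟨C, hC, htail⟩ := tail_bound
  have hmr := Pool.Agent.H305R2.mertens_ratio
  set L : ℕ → ℝ := fun n => ∑ p ∈ (Finset.Icc 1 n).filter Nat.Prime, Real.log p / p with hL
  have key : Tendsto (fun n : ℕ => (∑ p ∈ (Finset.Icc 1 n).filter Nat.Prime,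
      ∫ τ in Set.Ioc (u n) (v n), f p (p * τ + b)) /
      ((v n - u n) * Real.log n) - G / c * (L n / Real.log n)) atTop (𝓝 0) := by
    rw [Metric.tendsto_atTop]
    intro δ hδ
    set ε := δ / 4 with hε
    have hε0 : 0 < ε := by positivity
    obtain ⟨P, hP⟩ := eventually_atTop.1 (hone ε hε0)
    set B := (P : ℝ) * (1 + G / c) with hB
    have hB0 : 0 ≤ B := by positivity
    have hl0 : ∀ᶠ n : ℕ in atTop, 1 ≤ Real.log n := log_nat_tendsto.eventually_ge_atTop 1
    have hl1 : ∀ᶠ n : ℕ in atTop, (B + 1) / ε ≤ Real.log n :=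
      log_nat_tendsto.eventually_ge_atTop _
    have hl2 : ∀ᶠ n : ℕ in atTop, K * C / ε ≤ (v n - u n) * Real.log n :=
      hw.eventually_ge_atTop _
    have hl3 : ∀ᶠ n : ℕ in atTop, L n / Real.log n < 5 / 4 :=
      hmr.eventually (gt_mem_nhds (by norm_num))
    have hall := hl0.and (hl1.and (hl2.and hl3))
    obtain ⟨N, hN⟩ := eventually_atTop.1 hall
    refine ⟨N, fun n hn => ?_⟩
    obtain ⟨a0, a1, a2, a3⟩ := hN n hn
    have hlog0 : 0 < Real.log n := by linarith
    have hd : 0 < v n - u n := by linarith [huv n]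
    set d := v n - u n with hdd
    rw [Real.dist_eq, sub_zero]
    set S := (Finset.Icc 1 n).filter Nat.Prime with hS
    have hterm : ∀ p ∈ S, |(∫ τ in Set.Ioc (u n) (v n), f p (p * τ + b)) -
        d * (G / c) * (Real.log p / p)| ≤
        (if p < P then d * (1 + G / c) else 0) + (ε * d * (Real.log p / p) +
          K * (Real.log p / p ^ 2)) := by
      intro p hp
      rw [hS, Finset.mem_filter, Finset.mem_Icc] at hp
      have hp1 : (1 : ℝ) ≤ p := by exact_mod_cast hp.1.1
      have hlp : 0 ≤ Real.log p := Real.log_nonneg hp1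
      have hlp1 : Real.log p / p ≤ 1 := by
        rw [div_le_one (by linarith)]
        have := Real.log_le_sub_one_of_pos (show (0 : ℝ) < p by linarith)
        linarith
      have hnn1 : 0 ≤ Real.log p / p := by positivity
      have hnn2 : 0 ≤ K * (Real.log p / (p : ℝ) ^ 2) := by positivity
      have hGc : 0 < G / c := by positivity
      split_ifs with hlt
      · have hmeas : Measurable fun τ : ℝ => f p (p * τ + b) :=
          (hf.meas p).comp ((measurable_const_mul _).add_const _)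
        have hint : IntegrableOn (fun τ : ℝ => f p (p * τ + b)) (Set.Ioc (u n) (v n)) := by
          refine Measure.integrableOn_of_bounded (M := 1) (by simp) hmeas.aestronglyMeasurable ?_
          exact Eventually.of_forall fun t => by
            rw [Real.norm_eq_abs, abs_of_nonneg (hf.nonneg _ _)]
            exact hf.le_one _ _
        have b1 : 0 ≤ ∫ τ in Set.Ioc (u n) (v n), f p (p * τ + b) :=
          setIntegral_nonneg measurableSet_Ioc fun t _ => hf.nonneg _ _
        have b2 : ∫ τ in Set.Ioc (u n) (v n), f p (p * τ + b) ≤ d := by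
          calc ∫ τ in Set.Ioc (u n) (v n), f p (p * τ + b) ≤ ∫ τ in Set.Ioc (u n) (v n), (1 : ℝ) :=
                setIntegral_mono_on hint (integrableOn_const (by simp))
                  measurableSet_Ioc fun t _ => hf.le_one _ _
            _ = d := by
                rw [setIntegral_const, smul_eq_mul, mul_one, Real.volume_real_Ioc_of_le (huv n).le]
        have b3 : 0 ≤ d * (G / c) * (Real.log p / p) := by positivity
        have b4 : d * (G / c) * (Real.log p / p) ≤ d * (G / c) * 1 :=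
          mul_le_mul_of_nonneg_left hlp1 (by positivity)
        have b5 : 0 ≤ ε * d * (Real.log p / p) := by positivity
        rw [abs_le]
        constructor
        · nlinarith
        · nlinarith
      · rw [zero_add]
        exact hP p (not_lt.1 hlt) n hp.1.2
    have hsum : |(∑ p ∈ S, ∫ τ in Set.Ioc (u n) (v n), f p (p * τ + b)) - d * (G / c) * L n| ≤
        B * d + (ε * d * L n + K * C) := by
      have e1 : (∑ p ∈ S, ∫ τ in Set.Ioc (u n) (v n), f p (p * τ + b)) - d * (G / c) * L n =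
          ∑ p ∈ S, ((∫ τ in Set.Ioc (u n) (v n), f p (p * τ + b)) -
            d * (G / c) * (Real.log p / p)) := by
        rw [Finset.sum_sub_distrib, ← Finset.mul_sum]
      rw [e1]
      refine (Finset.abs_sum_le_sum_abs _ _).trans ((Finset.sum_le_sum hterm).trans ?_)
      rw [Finset.sum_add_distrib, Finset.sum_add_distrib, ← Finset.mul_sum, ← Finset.mul_sum]
      refine add_le_add ?_ (add_le_add le_rfl (mul_le_mul_of_nonneg_left (htail S) hK.le))
      rw [← Finset.sum_filter, Finset.sum_const, nsmul_eq_mul]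
      have hcard : ((S.filter fun p => p < P).card : ℝ) ≤ P := by
        have : (S.filter fun p => p < P).card ≤ (Finset.range P).card := by
          refine Finset.card_le_card fun p hp => ?_
          rw [Finset.mem_filter] at hp
          exact Finset.mem_range.2 hp.2
        rw [Finset.card_range] at this
        exact_mod_cast this
      have hGc : 0 < G / c := by positivity
      calc ((S.filter fun p => p < P).card : ℝ) * (d * (1 + G / c)) ≤
            P * (d * (1 + G / c)) := mul_le_mul_of_nonneg_right hcard (by positivity)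
        _ = B * d := by rw [hB]; ring
    have e2 : (∑ p ∈ S, ∫ τ in Set.Ioc (u n) (v n), f p (p * τ + b)) / (d * Real.log n) -
        G / c * (L n / Real.log n) =
        ((∑ p ∈ S, ∫ τ in Set.Ioc (u n) (v n), f p (p * τ + b)) - d * (G / c) * L n) /
          (d * Real.log n) := by
      field_simp
    have hdl : 0 < d * Real.log n := by positivity
    rw [e2, abs_div, abs_of_pos hdl, div_lt_iff₀ hdl]
    refine hsum.trans_lt ?_
    rw [div_le_iff₀ hε0] at a1 a2
    rw [div_lt_iff₀ hlog0] at a3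
    have c1 : B * d ≤ ε * (d * Real.log n) := by
      have : B ≤ Real.log n * ε := by linarith
      nlinarith
    have c2 : ε * d * L n ≤ ε * d * (5 / 4 * Real.log n) :=
      mul_le_mul_of_nonneg_left a3.le (by positivity)
    have c3 : δ = 4 * ε := by rw [hε]; ring
    rw [c3]
    nlinarith
  have h2 := key.add (hmr.const_mul (G / c))
  simp only [zero_add, mul_one] at h2
  refine h2.congr fun n => ?_
  ring

end Pool.Agent.H937
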