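import Mathlib
import Pool.Agent.H937.Local

set_option autoImplicit false

/-!
# Mean laws over shrinking windows of real bases for `(x ^ p - b ^ p) / (a - b)`
-/

namespace Pool.Agent.H937

open Filter Topology MeasureTheory

open Pool.Agent.H447R2.ML (Good LL gg fl)

/-- The product, with multiplicity, of the prime factors of `m` that are larger than `p`. -/
def roughPart (p m : ℕ) : ℕ := (m.primeFactorsList.filter (fun r => p < r)).prod

/-- The `p`-rough part of the integer part of `(x ^ p - b ^ p) / (a - b)`. -/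
noncomputable def W (a b : ℤ) (x : ℝ) (p : ℕ) : ℕ :=
  roughPart p ⌊(x ^ p - (b : ℝ) ^ p) / ((a : ℝ) - b)⌋₊

/-- The number of primes `p ≤ n` for which `W a b x p` is prime. -/
noncomputable def M (a b : ℤ) (x : ℝ) (n : ℕ) : ℕ :=
  ((Finset.range (n + 1)).filter (fun p => p.Prime ∧ (W a b x p).Prime)).card

theorem W_special {a b : ℤ} (hab : IsCoprime a b) (h1 : -a < b) (h2 : b < a) {p : ℕ}
    (hp : p.Prime) (hpd : ¬ (p : ℤ) ∣ a - b) :
    ((W a b a p : ℕ) : ℤ) = ∑ i ∈ Finset.range p, a ^ i * b ^ (p - 1 - i) := by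
  refine Pool.Agent.H447R2.ML.rough_quot hab h1 h2 hp hpd
    (x := ((a : ℝ) ^ p - (b : ℝ) ^ p) / ((a : ℝ) - b)) ?_
  ring

/-- the perturbation -/
noncomputable def gp (a b : ℤ) (p : ℕ) : ℝ := -((b : ℝ) ^ p / ((a : ℝ) - b))

/-- the growth exponent of the perturbation -/
noncomputable def kap (b : ℤ) : ℝ := Real.log (max |(b : ℝ)| 1)

lemma kap_nonneg (b : ℤ) : 0 ≤ kap b := Real.log_nonneg (le_max_right _ _)

lemma kap_lt {a b : ℤ} (ha : 2 ≤ a) (h1 : -a < b) (h2 : b < a) : kap b < Real.log a := by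
  unfold kap
  refine Real.log_lt_log (lt_of_lt_of_le one_pos (le_max_right _ _)) (max_lt ?_ ?_)
  · rw [abs_lt]
    constructor
    · exact_mod_cast h1
    · exact_mod_cast h2
  · exact_mod_cast (by omega : (1 : ℤ) < a)

lemma good {a b : ℤ} (h2 : b < a) : Good (fl (gp a b)) (kap b) := by
  have hd : (1 : ℝ) ≤ (a : ℝ) - b := by
    have : b + 1 ≤ a := h2
    have h3 : ((b + 1 : ℤ) : ℝ) ≤ a := by exact_mod_cast this
    push_cast at h3
    linarith
  refine Pool.Agent.H447R2.ML.good_fl (C := 1) (kap_nonneg b) one_pos fun p => ?_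
  unfold gp kap
  have hm : 0 < max |(b : ℝ)| 1 := lt_of_lt_of_le one_pos (le_max_right _ _)
  have e : Real.exp (Real.log (max |(b : ℝ)| 1) * p) = (max |(b : ℝ)| 1) ^ p := by
    rw [mul_comm, Real.exp_nat_mul, Real.exp_log hm]
  rw [e, abs_neg, abs_div, abs_pow, abs_of_pos (show (0 : ℝ) < (a : ℝ) - b by linarith), one_mul]
  refine (div_le_self (by positivity) hd).trans ?_
  exact pow_le_pow_left₀ (abs_nonneg _) (le_max_left _ _) p

/-- the indicator of the logarithmic bases with a prime `p`-th term -/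
noncomputable def ind (a b : ℤ) (p : ℕ) (τ : ℝ) : ℝ :=
  fl (gp a b) p (p * τ + -Real.log ((a : ℝ) - b))

lemma ind_eq {a b : ℤ} (h2 : b < a) (p : ℕ) (τ : ℝ) :
    ind a b p τ = if (W a b (Real.exp τ) p).Prime then 1 else 0 := by
  have hd : (0 : ℝ) < (a : ℝ) - b := by
    have h3 : (b : ℝ) < a := by exact_mod_cast h2
    linarith
  have e : Real.exp (p * τ + -Real.log ((a : ℝ) - b)) + gp a b p =
      (Real.exp τ ^ p - (b : ℝ) ^ p) / ((a : ℝ) - b) := by
    rw [Real.exp_add, Real.exp_nat_mul, Real.exp_neg, Real.exp_log hd, gp]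
    ring
  unfold ind fl W
  rw [e]
  rfl

lemma ind_nonneg (a b : ℤ) (p : ℕ) (τ : ℝ) : 0 ≤ ind a b p τ :=
  Pool.Agent.H447R2.ML.fl_nonneg _ _ _

lemma ind_le_one (a b : ℤ) (p : ℕ) (τ : ℝ) : ind a b p τ ≤ 1 :=
  Pool.Agent.H447R2.ML.fl_le_one _ _ _

lemma measurable_ind (a b : ℤ) (p : ℕ) : Measurable (ind a b p) :=
  (Pool.Agent.H447R2.ML.measurable_fl _ p).comp ((measurable_const_mul _).add_const _)

lemma integrableOn_ind (a b : ℤ) (p : ℕ) (u v : ℝ) : IntegrableOn (ind a b p) (Set.Ioc u v) := by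
  refine Measure.integrableOn_of_bounded (M := 1) (by simp)
    (measurable_ind a b p).aestronglyMeasurable ?_
  exact Eventually.of_forall fun t => by
    rw [Real.norm_eq_abs, abs_of_nonneg (ind_nonneg _ _ _ _)]
    exact ind_le_one _ _ _ _

/-- the exact measure of the set of bases as an integral -/
lemma volume_A {a b : ℤ} (h2 : b < a) (u v : ℝ) (p : ℕ) :
    volume {τ : ℝ | τ ∈ Set.Ioc u v ∧ (W a b (Real.exp τ) p).Prime} =
      ENNReal.ofReal (∫ τ in Set.Ioc u v, ind a b p τ) := by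
  have hA : {τ : ℝ | τ ∈ Set.Ioc u v ∧ (W a b (Real.exp τ) p).Prime} =
      {τ | ind a b p τ = 1} ∩ Set.Ioc u v := by
    ext τ
    simp only [Set.mem_ofPred_eq, Set.mem_inter_iff, ind_eq h2]
    constructor
    · rintro ⟨h1, h2⟩
      exact ⟨by rw [if_pos h2], h1⟩
    · rintro ⟨h1, h2⟩
      refine ⟨h2, ?_⟩
      by_contra hc
      rw [if_neg hc] at h1
      exact zero_ne_one h1
  rw [ofReal_integral_eq_lintegral_ofReal (integrableOn_ind a b p u v)
    (Eventually.of_forall fun _ => ind_nonneg _ _ _ _), hA]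
  have hms : MeasurableSet {τ | ind a b p τ = 1} :=
    (measurable_ind a b p) (measurableSet_singleton 1)
  rw [← Measure.restrict_apply hms, ← lintegral_indicator_one hms]
  refine lintegral_congr fun t => ?_
  by_cases hb : t ∈ {τ | ind a b p τ = 1}
  · rw [Set.indicator_of_mem hb]
    have : ind a b p t = 1 := hb
    rw [this]
    simp
  · rw [Set.indicator_of_notMem hb]
    have h3 : ind a b p t ≠ 1 := hb
    have h4 : ind a b p t = 0 := by
      rw [ind_eq h2] at h3 ⊢
      split_ifs at h3 ⊢ with h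
      · exact absurd rfl h3
      · rfl
    rw [h4]
    simp

theorem local_AB {a b : ℤ} (h2 : b < a) {c : ℝ} (hc : kap b < c) {u v : ℕ → ℝ}
    (hu : Tendsto u atTop (𝓝 c)) (hv : Tendsto v atTop (𝓝 c)) (huv : ∀ p, u p < v p)
    (hw : Tendsto (fun p : ℕ => (p : ℝ) * (v p - u p)) atTop atTop) :
    Tendsto (fun p : ℕ =>
      (volume {τ : ℝ | τ ∈ Set.Ioc (u p) (v p) ∧ (W a b (Real.exp τ) p).Prime}).toReal /
        (v p - u p) * (p / Real.log p)) atTop
      (𝓝 (Real.exp Real.eulerMascheroniConstant / c)) := by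
  have h1 := local_law (good h2) (-Real.log ((a : ℝ) - b)) hc hu hv huv hw
  refine h1.congr fun p => ?_
  rw [volume_A h2, ENNReal.toReal_ofReal
    (setIntegral_nonneg measurableSet_Ioc fun t _ => ind_nonneg _ _ _ _)]
  rfl

/-- the mean of the counting function as a sum over primes -/
lemma mean_M {a b : ℤ} (h2 : b < a) {u v : ℝ} (huv : u ≤ v) (n : ℕ) :
    ∫ τ in u..v, (M a b (Real.exp τ) n : ℝ) =
      ∑ p ∈ (Finset.Icc 1 n).filter Nat.Prime, ∫ τ in Set.Ioc u v, ind a b p τ := by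
  have h1 : ∀ τ : ℝ, (M a b (Real.exp τ) n : ℝ) =
      ∑ p ∈ (Finset.Icc 1 n).filter Nat.Prime, ind a b p τ := by
    intro τ
    rw [← Pool.Agent.H305R2.sum_range_if (fun p => ind a b p τ) n]
    unfold M
    rw [Finset.card_filter]
    push_cast
    refine Finset.sum_congr rfl fun p _ => ?_
    rw [ind_eq h2]
    by_cases hp : p.Prime <;> by_cases hW : (W a b (Real.exp τ) p).Prime <;> simp [hp, hW]
  rw [intervalIntegral.integral_of_le huv]
  simp only [h1]
  exact integral_finsetSum _ fun p _ => integrableOn_ind a b p u v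

theorem mean_AB {a b : ℤ} (h2 : b < a) {c : ℝ} (hc : kap b < c) {u v : ℕ → ℝ}
    (hu : Tendsto u atTop (𝓝 c)) (hv : Tendsto v atTop (𝓝 c)) (huv : ∀ n, u n < v n)
    (hw : Tendsto (fun n : ℕ => (v n - u n) * Real.log n) atTop atTop) :
    Tendsto (fun n : ℕ => (∫ τ in (u n)..(v n), (M a b (Real.exp τ) n : ℝ)) /
      ((v n - u n) * Real.log n)) atTop
      (𝓝 (Real.exp Real.eulerMascheroniConstant / c)) := by
  have h1 := mean_shrink (good h2) (-Real.log ((a : ℝ) - b)) hc hu hv huv hw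
  refine h1.congr fun n => ?_
  rw [mean_M h2 (huv n).le]
  rfl

end Pool.Agent.H937
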